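import Pool.Agent.H777R4.DM.Stmts

set_option autoImplicit false

namespace Pool.Agent.H835R4.KL1

open Pool.Agent.H777R4.DM
open scoped Classical

attribute [local instance 100] LieRing.ofAssociativeRing

abbrev W := FreeMonoid ℕ

/-- the coefficient of the left word `w` -/
noncomputable def KK (w : W) : AYY →ₗ[ℚ] AY :=
  (Finsupp.linearCombination ℚ (fun m : W × W => if m.1 = w then (MonoidAlgebra.single m.2 (1 : ℚ) : AY) else 0)) ∘ₗ
    (MonoidAlgebra.coeffLinearEquiv ℚ).toLinearMap

theorem KK_single (w : W) (m : W × W) (r : ℚ) :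
    KK w (MonoidAlgebra.single m r) = if m.1 = w then MonoidAlgebra.single m.2 r else 0 := by
  have h : (MonoidAlgebra.coeffLinearEquiv ℚ (MonoidAlgebra.single m r : AYY)) = Finsupp.single m r := rfl
  unfold KK
  rw [LinearMap.comp_apply]
  erw [h]
  rw [Finsupp.linearCombination_single]
  split_ifs with h1
  · rw [MonoidAlgebra.smul_single, smul_eq_mul, mul_one]
  · rw [smul_zero]

theorem inl_single (a : W) (r : ℚ) : inl (MonoidAlgebra.single a r) = MonoidAlgebra.single (a, 1) r := by
  unfold inl
  simp

theorem inr_single (a : W) (r : ℚ) : inr (MonoidAlgebra.single a r) = MonoidAlgebra.single (1, a) r := by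
  unfold inr
  simp

theorem KK_inr (w : W) (G : AY) (Y : AYY) : KK w (inr G * Y) = G * KK w Y := by
  induction G using MonoidAlgebra.induction_linear with
  | zero => simp
  | add G₁ G₂ h1 h2 => rw [map_add, add_mul, map_add, h1, h2, add_mul]
  | single a r =>
    induction Y using MonoidAlgebra.induction_linear with
    | zero => simp
    | add Y₁ Y₂ h1 h2 => rw [mul_add, map_add, h1, h2, map_add, mul_add]
    | single m s =>
      rw [inr_single, MonoidAlgebra.single_mul_single, KK_single, KK_single]
      simp only [Prod.fst_mul, one_mul, Prod.snd_mul]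
      split_ifs with h
      · rw [MonoidAlgebra.single_mul_single]
      · rw [mul_zero]

theorem len_mul (a b : W) : (FreeMonoid.toList (a * b)).length =
    (FreeMonoid.toList a).length + (FreeMonoid.toList b).length := by
  rw [FreeMonoid.toList_mul, List.length_append]

theorem KK_inl_single (w a : W) (r : ℚ) (ha : (FreeMonoid.toList a).length = (FreeMonoid.toList w).length)
    (Y : AYY) : KK w (inl (MonoidAlgebra.single a r) * Y) = (if a = w then r else 0) • KK 1 Y := by
  induction Y using MonoidAlgebra.induction_linear with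
  | zero => simp
  | add Y₁ Y₂ h1 h2 => rw [mul_add, map_add, h1, h2, map_add, smul_add]
  | single m s =>
    rw [inl_single, MonoidAlgebra.single_mul_single, KK_single, KK_single]
    simp only [Prod.fst_mul, one_mul, Prod.snd_mul]
    by_cases h1 : m.1 = 1
    · rw [h1, mul_one, if_pos rfl]
      by_cases h2 : a = w
      · rw [if_pos h2, if_pos h2, MonoidAlgebra.smul_single, smul_eq_mul]
      · rw [if_neg h2, if_neg h2, zero_smul]
    · rw [if_neg h1, smul_zero, if_neg]
      intro h3
      have h4 := congrArg (fun z : W => (FreeMonoid.toList z).length) h3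
      simp only [len_mul] at h4
      apply h1
      have h5 : (FreeMonoid.toList m.1).length = 0 := by omega
      exact FreeMonoid.toList.injective (by rw [List.length_eq_zero_iff.1 h5]; rfl)

theorem KK_inl (w : W) (G : AY) (hG : LenHom G (FreeMonoid.toList w).length) (Y : AYY) :
    KK w (inl G * Y) = G.coeff w • KK 1 Y := by
  have e : G = ∑ a ∈ G.coeff.support, MonoidAlgebra.single a (G.coeff a) :=
    (MonoidAlgebra.sum_coeff_single G).symm
  conv_lhs => rw [e]
  rw [map_sum, Finset.sum_mul, map_sum]
  have : ∀ a ∈ G.coeff.support, KK w (inl (MonoidAlgebra.single a (G.coeff a)) * Y) =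
      (if a = w then G.coeff a else 0) • KK 1 Y := by
    intro a ha
    exact KK_inl_single w a _ (hG (FreeMonoid.toList a) (by
      unfold co; rw [FreeMonoid.ofList_toList]; exact Finsupp.mem_support_iff.1 ha)) Y
  rw [Finset.sum_congr rfl this, ← Finset.sum_smul]
  congr 1
  rw [Finset.sum_ite_eq']
  split_ifs with h
  · rfl
  · exact (Finsupp.notMem_support_iff.1 h).symm

theorem KK_one_inl (G : AY) (t : ℕ) (ht : 1 ≤ t) (hG : LenHom G t) (Y : AYY) :
    KK 1 (inl G * Y) = 0 := by
  have e : G = ∑ a ∈ G.coeff.support, MonoidAlgebra.single a (G.coeff a) :=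
    (MonoidAlgebra.sum_coeff_single G).symm
  rw [e, map_sum, Finset.sum_mul, map_sum]
  refine Finset.sum_eq_zero fun a ha => ?_
  have hal : (FreeMonoid.toList a).length = t := hG (FreeMonoid.toList a) (by
      unfold co; rw [FreeMonoid.ofList_toList]; exact Finsupp.mem_support_iff.1 ha)
  induction Y using MonoidAlgebra.induction_linear with
  | zero => simp
  | add Y₁ Y₂ h1 h2 => rw [mul_add, map_add, h1, h2, add_zero]
  | single m s =>
    rw [inl_single, MonoidAlgebra.single_mul_single, KK_single, if_neg]
    intro h3
    have h4 := congrArg (fun z : W => (FreeMonoid.toList z).length) h3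
    simp only [Prod.fst_mul, len_mul] at h4
    rw [hal] at h4
    have : (FreeMonoid.toList (1 : W)).length = 0 := rfl
    omega

theorem KK_pow (w : W) (t : ℕ) (ht : 1 ≤ t) (hw : (FreeMonoid.toList w).length = t) (G : AY)
    (hG : LenHom G t) (Y : AYY) (k : ℕ) :
    KK 1 ((inl G + inr G) ^ k * Y) = G ^ k * KK 1 Y ∧
    KK w ((inl G + inr G) ^ (k + 1) * Y) =
      (((k : ℚ) + 1) * G.coeff w) • (G ^ k * KK 1 Y) + G ^ (k + 1) * KK w Y := by
  have hone : ∀ Z : AYY, KK 1 ((inl G + inr G) * Z) = G * KK 1 Z := by
    intro Z
    rw [add_mul, map_add, KK_one_inl G t ht hG, KK_inr, zero_add]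
  have hwz : ∀ Z : AYY, KK w ((inl G + inr G) * Z) = G.coeff w • KK 1 Z + G * KK w Z := by
    intro Z
    rw [add_mul, map_add, KK_inl w G (by rw [hw]; exact hG), KK_inr]
  have h1 : ∀ k : ℕ, KK 1 ((inl G + inr G) ^ k * Y) = G ^ k * KK 1 Y := by
    intro k
    induction k with
    | zero => simp
    | succ k ih => rw [pow_succ', mul_assoc, hone, ih, pow_succ', mul_assoc]
  refine ⟨h1 k, ?_⟩
  induction k with
  | zero => rw [zero_add, pow_one, hwz]; simp
  | succ k ih =>
    rw [pow_succ', mul_assoc, hwz, ih, h1 (k + 1), mul_add, mul_smul_comm, ← mul_assoc, ← mul_assoc,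
      ← pow_succ', ← pow_succ', ← add_assoc, ← add_smul]
    congr 2
    push_cast
    ring

theorem lenHom_letter (k : ℕ) : LenHom (wd [k]) 1 := by
  intro v hv
  unfold co wd at hv
  by_contra hc
  apply hv
  rw [MonoidAlgebra.of_apply, MonoidAlgebra.coeff_single, Finsupp.single_apply, if_neg]
  intro h
  apply hc
  have := FreeMonoid.ofList.injective h
  rw [← this]; rfl

theorem sh_letter (k : ℕ) : shΔ (wd [k]) = inl (wd [k]) + inr (wd [k]) := by
  have : (wd [k] : AY) = MonoidAlgebra.of ℚ (FreeMonoid ℕ) (FreeMonoid.of k) := rfl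
  rw [this]
  unfold shΔ
  rw [MonoidAlgebra.lift_of, FreeMonoid.lift_eval_of]
  rfl

theorem KK_sh (a : AY) : KK 1 (shΔ a) = a := by
  induction a using MonoidAlgebra.induction_linear with
  | zero => simp
  | add Y₁ Y₂ h1 h2 => rw [map_add, map_add, h1, h2]
  | single m r =>
    have e : (MonoidAlgebra.single m r : AY) = r • MonoidAlgebra.single m 1 := by
      rw [MonoidAlgebra.smul_single, smul_eq_mul, mul_one]
    rw [e, map_smul, map_smul]
    congr 1
    induction m using FreeMonoid.inductionOn' with
    | one =>
      have : (MonoidAlgebra.single (1 : W) (1 : ℚ) : AY) = 1 := rfl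
      rw [this, map_one]
      have h2 : (1 : AYY) = MonoidAlgebra.single (1, 1) 1 := rfl
      rw [h2, KK_single, if_pos rfl]
      rfl
    | of_mul k l ih =>
      have : (MonoidAlgebra.single (FreeMonoid.of k * l) (1 : ℚ) : AY) =
          wd [k] * MonoidAlgebra.single l 1 := by
        have : (wd [k] : AY) = MonoidAlgebra.single (FreeMonoid.of k) 1 := rfl
        rw [this, MonoidAlgebra.single_mul_single, mul_one]
      rw [this, map_mul, sh_letter, add_mul, map_add, KK_one_inl _ 1 le_rfl (lenHom_letter k), KK_inr,
        zero_add]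
      congr 1
      exact ih (by rw [MonoidAlgebra.smul_single, smul_eq_mul, mul_one])

theorem co_eq (P : AY) (a : W) : co P (FreeMonoid.toList a) = P.coeff a := by
  unfold co; rw [FreeMonoid.ofList_toList]

/-- every word has length at least `n` -/
def MinLen (P : AY) (n : ℕ) : Prop := ∀ a : W, P.coeff a ≠ 0 → n ≤ (FreeMonoid.toList a).length

theorem minLen_mul {P Q : AY} {n m : ℕ} (hP : MinLen P n) (hQ : MinLen Q m) : MinLen (P * Q) (n + m) := by
  intro c hc
  rw [MonoidAlgebra.coeff_mul] at hc
  obtain ⟨a, ha, h1⟩ := Finset.exists_ne_zero_of_sum_ne_zero hc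
  obtain ⟨b, hb, h2⟩ := Finset.exists_ne_zero_of_sum_ne_zero h1
  have hab : a * b = c := by
    by_contra h
    exact h2 (if_neg h)
  rw [← hab, len_mul]
  exact add_le_add (hP a (Finsupp.mem_support_iff.1 ha)) (hQ b (Finsupp.mem_support_iff.1 hb))

theorem minLen_pow {G : AY} {t : ℕ} (hG : MinLen G t) (k : ℕ) : MinLen (G ^ k) (k * t) := by
  induction k with
  | zero => intro a _; simp
  | succ k ih =>
    rw [pow_succ, Nat.succ_mul]
    exact minLen_mul ih hG

theorem taskKL1 : TaskKL1 := by
  intro F G r t hr ht hF hG hpF hpG hF0 hG0 hprop ⟨e, he⟩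
  have hG' : MinLen G t := fun a ha => (hG (FreeMonoid.toList a) (by rw [co_eq]; exact ha)).ge
  obtain ⟨w, hw⟩ : ∃ w : W, G.coeff w ≠ 0 := by
    by_contra hc
    push Not at hc
    apply hG0
    ext a
    rw [hc a]; rfl
  have hwl : (FreeMonoid.toList w).length = t := hG (FreeMonoid.toList w) (by rw [co_eq]; exact hw)
  by_cases hrt : r = t
  · subst hrt
    -- `F = e(1) G`
    apply hprop (e.coeff 1)
    ext a
    by_cases hal : (FreeMonoid.toList a).length = r
    · have h1 : KK a (inl F * 1) = F.coeff a • KK 1 1 := KK_inl a F (by rw [hal]; exact hF) 1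
      have h2 : KK a (inl G * inl e) = G.coeff a • KK 1 (inl e) := KK_inl a G (by rw [hal]; exact hG) _
      rw [mul_one] at h1
      rw [← map_mul, ← he, h1] at h2
      have h3 : (KK 1 (1 : AYY)) = 1 := by
        have : (1 : AYY) = MonoidAlgebra.single (1, 1) 1 := rfl
        rw [this, KK_single, if_pos rfl]; rfl
      have h4 : ∀ P : AY, (KK 1 (inl P)).coeff 1 = P.coeff 1 := by
        intro P
        induction P using MonoidAlgebra.induction_linear with
        | zero => simp
        | add P Q h1 h2 =>
          rw [map_add, map_add, MonoidAlgebra.coeff_add, MonoidAlgebra.coeff_add, Finsupp.add_apply,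
            Finsupp.add_apply, h1, h2]
        | single m s =>
          rw [inl_single, KK_single]
          by_cases hm : m = 1
          · subst hm
            rw [if_pos rfl]
          · rw [if_neg hm, MonoidAlgebra.coeff_single, Finsupp.single_apply, if_neg hm]
            rfl
      have h5 := congrArg (fun P : AY => P.coeff 1) h2
      simp only [MonoidAlgebra.coeff_smul, Finsupp.smul_apply, smul_eq_mul] at h5
      rw [h4, h3, MonoidAlgebra.coeff_one_one, mul_one] at h5
      rw [h5, MonoidAlgebra.coeff_smul, Finsupp.smul_apply, smul_eq_mul, mul_comm]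
    · have h1 : F.coeff a = 0 := by
        by_contra h
        exact hal (hF (FreeMonoid.toList a) (by rw [co_eq]; exact h))
      have h2 : G.coeff a = 0 := by
        by_contra h
        exact hal (hG (FreeMonoid.toList a) (by rw [co_eq]; exact h))
      rw [h1, MonoidAlgebra.coeff_smul, Finsupp.smul_apply, h2, smul_zero]
  · have key : ∀ k : ℕ, ∃ e, F = G ^ (k + 1) * e := by
      intro k
      induction k with
      | zero => exact ⟨e, by rw [zero_add, pow_one]; exact he⟩
      | succ k ih =>
        obtain ⟨e, he⟩ := ih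
        have hF1 : KK w (shΔ F) = 0 := by
          rw [hpF, map_add]
          have h1 : KK w (inl F) = 0 := by
            have e1 : F = ∑ a ∈ F.coeff.support, MonoidAlgebra.single a (F.coeff a) :=
              (MonoidAlgebra.sum_coeff_single F).symm
            rw [e1, map_sum, map_sum]
            refine Finset.sum_eq_zero fun a ha => ?_
            rw [inl_single, KK_single, if_neg]
            intro h
            apply hrt
            rw [← hwl, ← hF (FreeMonoid.toList a) (by rw [co_eq]; exact Finsupp.mem_support_iff.1 ha)]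
            simp only at h
            rw [h]
          have h2 : KK w (inr F) = 0 := by
            have h3 := KK_inr w F 1
            rw [mul_one] at h3
            rw [h3]
            have : (1 : AYY) = MonoidAlgebra.single (1, 1) 1 := rfl
            rw [this, KK_single, if_neg, mul_zero]
            intro h
            simp only at h
            rw [← h] at hwl
            have : (FreeMonoid.toList (1 : W)).length = 0 := rfl
            omega
          rw [h1, h2, add_zero]
        rw [he, map_mul, map_pow, hpG, (KK_pow w t ht hwl G hG (shΔ e) k).2, KK_sh] at hF1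
        set c : ℚ := ((k : ℚ) + 1) * G.coeff w with hc
        have hc0 : c ≠ 0 := mul_ne_zero (by positivity) hw
        have h2 : G ^ k * (c • e + G * KK w (shΔ e)) = 0 := by
          rw [mul_add, mul_smul_comm, ← mul_assoc, ← pow_succ]
          exact hF1
        have h3 : c • e + G * KK w (shΔ e) = 0 :=
          (mul_eq_zero.1 h2).resolve_left (pow_ne_zero _ hG0)
        refine ⟨-(c⁻¹ • KK w (shΔ e)), ?_⟩
        have h4 : e = G * -(c⁻¹ • KK w (shΔ e)) := by
          have h5 : c • e = -(G * KK w (shΔ e)) := eq_neg_of_add_eq_zero_left h3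
          have h6 : e = c⁻¹ • (c • e) := by rw [smul_smul, inv_mul_cancel₀ hc0, one_smul]
          rw [h5] at h6
          refine h6.trans ?_
          rw [mul_neg, mul_smul_comm, smul_neg]
        conv_lhs => rw [he, h4]
        rw [← mul_assoc, ← pow_succ]
    obtain ⟨e, he⟩ := key r
    obtain ⟨v, hv⟩ : ∃ v : W, F.coeff v ≠ 0 := by
      by_contra hc
      push Not at hc
      apply hF0
      ext a
      rw [hc a]; rfl
    have h1 : (FreeMonoid.toList v).length = r := hF (FreeMonoid.toList v) (by rw [co_eq]; exact hv)
    have h2 : MinLen (G ^ (r + 1) * e) ((r + 1) * t + 0) :=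
      minLen_mul (minLen_pow hG' (r + 1)) (fun a _ => Nat.zero_le _)
    rw [← he] at h2
    have h3 := h2 v hv
    rw [h1] at h3
    nlinarith

end Pool.Agent.H835R4.KL1
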